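import Pool.Agent.Y262.QE.Stm

/-!
# The spectral theorem for a pair of forms (renorming)
-/

set_option autoImplicit false

open Set Filter Topology

noncomputable section

namespace Pool.Agent.Y161.QE

open Pool.Agent.Y262.QE

variable {H : Type} [NormedAddCommGroup H] [InnerProductSpace ℝ H]

/-- The space `H` with the inner product `a + b`. -/
def HN {a b : H →L[ℝ] H →L[ℝ] ℝ} (_ : Fm a b) : Type := H

section

variable {a b : H →L[ℝ] H →L[ℝ] ℝ} (h : Fm a b)

instance : AddCommGroup (HN h) := inferInstanceAs (AddCommGroup H)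

instance : Module ℝ (HN h) := inferInstanceAs (Module ℝ H)

/-- The identity. -/
def io : H ≃ₗ[ℝ] HN h := LinearEquiv.refl ℝ H

/-- The inner product `a + b`. -/
@[instance_reducible]
def coreN : InnerProductSpace.Core ℝ (HN h) where
  inner u v := a ((io h).symm u) ((io h).symm v) + b ((io h).symm u) ((io h).symm v)
  conj_inner_symm u v := by
    show a ((io h).symm v) ((io h).symm u) + b ((io h).symm v) ((io h).symm u) = _
    rw [h.sa, h.sb]
  re_inner_nonneg v := by
    show 0 ≤ a ((io h).symm v) ((io h).symm v) + b ((io h).symm v) ((io h).symm v)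
    exact add_nonneg (h.na _) (h.nb _)
  add_left u v w := by
    simp only [map_add, add_apply]
    ring
  smul_left u v r := by
    simp only [map_smul, smul_apply, smul_eq_mul, conj_trivial]
    ring
  definite v hv := by
    obtain ⟨c, hc, hc'⟩ := h.co
    have h1 := hc' ((io h).symm v)
    rw [hv] at h1
    have h2 : ‖(io h).symm v‖ = 0 := by
      by_contra h3
      have h4 : 0 < ‖(io h).symm v‖ ^ 2 := by positivity
      nlinarith
    have h5 : (io h).symm v = 0 := norm_eq_zero.1 h2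
    exact h5

instance : NormedAddCommGroup (HN h) :=
  @InnerProductSpace.Core.toNormedAddCommGroup ℝ (HN h) _ _ _ (coreN h)

instance : InnerProductSpace ℝ (HN h) := InnerProductSpace.ofCore (coreN h).toCore

lemma inner_io (u v : H) : inner ℝ (io h u) (io h v) = a u v + b u v := rfl

lemma norm_io (v : H) : ‖io h v‖ ^ 2 = a v v + b v v := by
  rw [← real_inner_self_eq_norm_sq, inner_io]

lemma norm_io_le (v : H) : ‖io h v‖ ≤ Real.sqrt (‖a‖ + ‖b‖) * ‖v‖ := by
  have h0 : 0 ≤ ‖a‖ + ‖b‖ := by positivity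
  rw [← sq_le_sq₀ (norm_nonneg _) (by positivity), norm_io, mul_pow, Real.sq_sqrt h0]
  have h1 : a v v ≤ ‖a‖ * ‖v‖ * ‖v‖ := (le_abs_self _).trans (a.le_opNorm₂ v v)
  have h2 : b v v ≤ ‖b‖ * ‖v‖ * ‖v‖ := (le_abs_self _).trans (b.le_opNorm₂ v v)
  nlinarith

lemma norm_le_io {c : ℝ} (hc : 0 < c) (hc' : ∀ v, c * ‖v‖ ^ 2 ≤ a v v + b v v) (v : HN h) :
    ‖(io h).symm v‖ ≤ (Real.sqrt c)⁻¹ * ‖v‖ := by
  have hs : 0 < Real.sqrt c := Real.sqrt_pos.2 hc
  rw [← sq_le_sq₀ (norm_nonneg _) (by positivity), mul_pow, inv_pow, Real.sq_sqrt hc.le]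
  have h1 := hc' ((io h).symm v)
  rw [← norm_io h, LinearEquiv.apply_symm_apply] at h1
  rw [inv_mul_eq_div, le_div_iff₀ hc]
  linarith

end

theorem sp : StCpt → StDiag → StSp := by
  intro hCpt hDiag H _ _ _ a b h
  obtain ⟨c, hc, hc'⟩ := h.co
  let I : H ≃L[ℝ] HN h := (io h).toContinuousLinearEquivOfBounds _ _ (norm_io_le h)
    (norm_le_io h hc hc')
  have hI : ∀ v, I v = io h v := fun v => rfl
  have hinner : ∀ u v : H, inner ℝ (I u) (I v) = a u v + b u v := fun u v => rfl
  have : CompleteSpace (HN h) := (completeSpace_congr (e := I.toEquiv) I.isUniformEmbedding).1 inferInstance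
  let b' : HN h →L[ℝ] HN h →L[ℝ] ℝ :=
    b.bilinearComp (I.symm : HN h →L[ℝ] H) (I.symm : HN h →L[ℝ] H)
  have hb' : ∀ u v, b' u v = b (I.symm u) (I.symm v) := fun u v => rfl
  obtain ⟨T, hT, hTs, hTb⟩ := hCpt (HN h) b' (fun u v => by rw [hb', hb', h.sb])
    (fun v => by rw [hb']; exact h.nb _) (by
      intro ε hε
      obtain ⟨N, l, hl⟩ := h.cp (ε * c) (by positivity)
      refine ⟨N, fun i => (l i).comp (I.symm : HN h →L[ℝ] H), fun v => ?_⟩
      have h1 := hl (I.symm v)
      have h2 := hc' (I.symm v)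
      have h3 : ‖v‖ ^ 2 = a (I.symm v) (I.symm v) + b (I.symm v) (I.symm v) := by
        rw [← hinner, ContinuousLinearEquiv.apply_symm_apply, real_inner_self_eq_norm_sq]
      rw [← h3] at h2
      rw [hb']
      have h4 : ε * c * ‖I.symm v‖ ^ 2 ≤ ε * ‖v‖ ^ 2 := by
        rw [mul_assoc]
        exact mul_le_mul_of_nonneg_left h2 hε.le
      exact h1.trans (add_le_add h4 le_rfl))
  have hTI : ∀ u v : H, inner ℝ (T (I u)) (I v) = b u v := by
    intro u v
    rw [hTb, hb', ContinuousLinearEquiv.symm_apply_apply, ContinuousLinearEquiv.symm_apply_apply]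
  obtain ⟨e0, he0⟩ := h.inf
  obtain ⟨g, τ, hg, hτ, hanti, hlim, heig, hsum⟩ := hDiag (HN h) T hT hTs
    (fun v => by rw [hTb, hb']; exact h.nb _)
    ⟨fun i => I (e0 i), fun i j => by rw [hTI]; exact he0 i j⟩
  -- the vectors in `H`
  have hbg : ∀ j (v : H), b (I.symm (g j)) v = τ j * inner ℝ (g j) (I v) := by
    intro j v
    rw [← hTI, ContinuousLinearEquiv.apply_symm_apply, heig, real_inner_smul_left]
  have hcg : ∀ j (v : H), a (I.symm (g j)) v + b (I.symm (g j)) v = inner ℝ (g j) (I v) := by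
    intro j v
    rw [← hinner, ContinuousLinearEquiv.apply_symm_apply]
  refine ⟨fun j => (Real.sqrt (τ j))⁻¹ • I.symm (g j), fun j => (τ j)⁻¹ - 1, ?_, ?_, ?_, ?_, ?_⟩
  · intro i j
    simp only [map_smul, smul_apply, smul_eq_mul]
    rw [hbg, ContinuousLinearEquiv.apply_symm_apply, orthonormal_iff_ite.1 hg]
    split_ifs with hij
    · subst hij
      have h1 : Real.sqrt (τ i) * Real.sqrt (τ i) = τ i := Real.mul_self_sqrt (hτ i).le
      have h2 : Real.sqrt (τ i) ≠ 0 := (Real.sqrt_pos.2 (hτ i)).ne'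
      field_simp
      rw [pow_two, h1]
    · simp
  · intro j v
    simp only [map_smul, smul_apply, smul_eq_mul]
    have h1 := hbg j v
    have h2 := hcg j v
    have h3 : τ j ≠ 0 := (hτ j).ne'
    have h4 : a (I.symm (g j)) v = ((τ j)⁻¹ - 1) * b (I.symm (g j)) v := by
      have h5 : inner ℝ (g j) (I v) = (τ j)⁻¹ * b (I.symm (g j)) v := by
        rw [h1]
        field_simp
      linarith
    rw [h4]
    ring
  · intro i j hij
    have h1 : (τ i)⁻¹ ≤ (τ j)⁻¹ := inv_anti₀ (hτ j) (hanti hij)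
    show (τ i)⁻¹ - 1 ≤ (τ j)⁻¹ - 1
    linarith
  · have h1 : Tendsto τ atTop (𝓝[>] 0) :=
      tendsto_nhdsWithin_iff.2 ⟨hlim, Eventually.of_forall hτ⟩
    exact tendsto_atTop_add_const_right _ _ h1.inv_tendsto_nhdsGT_zero
  · intro v
    have h1 := hsum (I v)
    rw [hTI] at h1
    convert h1 using 2 with j
    simp only [map_smul, smul_eq_mul]
    rw [h.sb, hbg, mul_pow, inv_pow, Real.sq_sqrt (hτ j).le, real_inner_comm]
    have h3 : τ j ≠ 0 := (hτ j).ne'
    field_simp

end Pool.Agent.Y161.QE
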